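import Mathlib
import Pool.Agent.H.MP_229e70_co.A

namespace Pool.Agent.Results.MP_229e70_co.Counter

open Pool.Agent.H.MP_229e70_co Finset

noncomputable def pauli (v : EuclideanSpace ℝ (Fin 3)) : Matrix (Fin 2) (Fin 2) ℂ :=
  (v 0 : ℂ) • !![0, 1; 1, 0] + (v 1 : ℂ) • !![0, -Complex.I; Complex.I, 0] +
    (v 2 : ℂ) • !![1, 0; 0, -1]

def Valid {V : Type} (G : SimpleGraph V) (x : V → EuclideanSpace ℝ (Fin 3))
    (ψ : G.Dart → Fin 2 → ℂ) : Prop :=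
  ∀ d : G.Dart, ‖ψ d 0‖ ^ 2 + ‖ψ d 1‖ ^ 2 = 1 ∧
    (pauli (‖x d.snd - x d.fst‖⁻¹ • (x d.snd - x d.fst))).mulVec (ψ d) = ψ d

def om (u v : Fin 2 → ℂ) : ℂ := u 0 * v 1 - v 0 * u 1

theorem eig_iff (w : EuclideanSpace ℝ (Fin 3)) (l a b : ℝ) (hl : 0 < l) (hab : 0 < a ^ 2 + b ^ 2)
    (h0 : w 0 = l * (2 * a * b)) (h1 : w 1 = 0) (h2 : w 2 = l * (a ^ 2 - b ^ 2))
    (ψ : Fin 2 → ℂ) :
    (pauli (‖w‖⁻¹ • w)).mulVec ψ = ψ ↔ ∃ c : ℂ, ψ 0 = c * a ∧ ψ 1 = c * b := by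
  have hn : ‖w‖ = l * (a ^ 2 + b ^ 2) := by
    rw [EuclideanSpace.norm_eq, Fin.sum_univ_three, h0, h1, h2]
    rw [Real.sqrt_eq_iff_mul_self_eq (by positivity) (by positivity)]
    simp only [Real.norm_eq_abs, sq_abs]
    ring
  have hc : ((a : ℂ) ^ 2 + (b : ℂ) ^ 2) ≠ 0 := by exact_mod_cast hab.ne'
  have hl' : (l : ℂ) ≠ 0 := by exact_mod_cast hl.ne'
  have e : (pauli (‖w‖⁻¹ • w)).mulVec ψ = ψ ↔
      (((a : ℂ) ^ 2 - b ^ 2) * ψ 0 + 2 * a * b * ψ 1) / (a ^ 2 + b ^ 2) = ψ 0 ∧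
      (2 * a * b * ψ 0 - ((a : ℂ) ^ 2 - b ^ 2) * ψ 1) / (a ^ 2 + b ^ 2) = ψ 1 := by
    rw [funext_iff, Fin.forall_fin_two]
    apply and_congr <;> apply Eq.congr_left <;>
      simp [pauli, Matrix.mulVec, dotProduct, Fin.sum_univ_two, hn, h0, h1, h2] <;> field_simp
    ring
  rw [e, div_eq_iff hc, div_eq_iff hc]
  constructor
  · rintro ⟨e1, e2⟩
    refine ⟨(a * ψ 0 + b * ψ 1) / (a ^ 2 + b ^ 2), ?_, ?_⟩
    · field_simp
      linear_combination (-1 / 2 : ℂ) * e1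
    · field_simp
      linear_combination (-1 / 2 : ℂ) * e2
  · rintro ⟨c, e1, e2⟩
    rw [e1, e2]
    constructor <;> ring

noncomputable def pt (i : Fin 17) : EuclideanSpace ℝ (Fin 3) := !₂[(X i : ℝ), 0, (Z i : ℝ)]

noncomputable def pd (d : G.Dart) : ℤ × ℤ := if d = fwd d.fst then pf d.fst else pb d.fst

theorem pd_fwd (i : Fin 17) : pd (fwd i) = pf i := by simp [pd]
theorem pd_bwd (i : Fin 17) : pd (bwd i) = pb i := by simp [pd, (fwd_ne_bwd i i).symm]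

theorem key (d : G.Dart) : 0 < ((pd d).1 : ℝ) ^ 2 + ((pd d).2 : ℝ) ^ 2 ∧ ∃ l : ℝ, 0 < l ∧
    (pt d.snd - pt d.fst) 0 = l * (2 * (pd d).1 * (pd d).2) ∧ (pt d.snd - pt d.fst) 1 = 0 ∧
    (pt d.snd - pt d.fst) 2 = l * (((pd d).1 : ℝ) ^ 2 - ((pd d).2 : ℝ) ^ 2) := by
  obtain ⟨i, hi⟩ : ∃ i, d = fwd i ∨ d = bwd i := ⟨_, dart_cases d⟩
  rcases hi with rfl | rfl
  · obtain ⟨h1, h2, h3, h4⟩ := data i
    rw [pd_fwd]
    refine ⟨by simp only [pf]; exact_mod_cast h2, L i, by exact_mod_cast h1, ?_, ?_, ?_⟩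
    · simp only [pt, fwd, pf]; simp; exact_mod_cast h3
    · simp [pt]
    · simp only [pt, fwd, pf]; simp; exact_mod_cast h4
  · obtain ⟨h1, h2, h3, h4⟩ := data (i - 1)
    rw [sub_add_cancel] at h3 h4
    rw [pd_bwd]
    have h3' : X (i - 1) - X i = L (i - 1) * (2 * (-B (i - 1)) * A (i - 1)) := by linarith
    have h4' : Z (i - 1) - Z i = L (i - 1) * ((-B (i - 1)) ^ 2 - A (i - 1) ^ 2) := by linarith
    have h2' : 0 < (-B (i - 1)) ^ 2 + A (i - 1) ^ 2 := by linarith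
    refine ⟨by simp only [pb]; exact_mod_cast h2', L (i - 1), by exact_mod_cast h1, ?_, ?_, ?_⟩
    · simp only [pt, bwd, pb]
      have : ((X (i - 1) : ℝ)) - X i = L (i - 1) * (2 * ((-B (i - 1) : ℤ) : ℝ) * A (i - 1)) := by
        exact_mod_cast h3'
      simpa using this
    · simp [pt]
    · simp only [pt, bwd, pb]
      have : ((Z (i - 1) : ℝ)) - Z i =
          L (i - 1) * (((-B (i - 1) : ℤ) : ℝ) ^ 2 - (A (i - 1) : ℝ) ^ 2) := by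
        exact_mod_cast h4'
      simpa using this

theorem valid_iff (d : G.Dart) (u : Fin 2 → ℂ) :
    (pauli (‖pt d.snd - pt d.fst‖⁻¹ • (pt d.snd - pt d.fst))).mulVec u = u ↔
      ∃ c : ℂ, u 0 = c * (pd d).1 ∧ u 1 = c * (pd d).2 := by
  obtain ⟨h, l, hl, h0, h1, h2⟩ := key d
  simpa using eig_iff _ l _ _ hl h h0 h1 h2 u

theorem term (ψ : G.Dart → Fin 2 → ℂ) (c : G.Dart → ℂ)
    (hc : ∀ d, ψ d 0 = c d * (pd d).1 ∧ ψ d 1 = c d * (pd d).2) (s : Fin 17 → Bool) :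
    ∏ i, om (ψ (sw s (fwd i))) (ψ (sw s (fwd i).symm)) =
      (∏ i, c (fwd i) * c (bwd i)) * ((∏ i, t i (s i) (s (i + 1)) : ℤ) : ℂ) := by
  have e : ∀ i, om (ψ (sw s (fwd i))) (ψ (sw s (fwd i).symm)) =
      c (sw s (fwd i)) * c (sw s (bwd (i + 1))) * (t i (s i) (s (i + 1)) : ℤ) := by
    intro i
    rw [fwd_symm, om, (hc _).1, (hc _).2, (hc _).1, (hc _).2, sw_fwd, sw_bwd, t, omZ]
    cases s i <;> cases s (i + 1) <;> simp [pd_fwd, pd_bwd] <;> ring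
  simp only [e]
  rw [prod_mul_distrib, prod_mul_distrib, Int.cast_prod]
  congr 1
  rw [Fintype.prod_equiv (Equiv.addRight (1 : Fin 17)) (fun i => c (sw s (bwd (i + 1))))
    (fun i => c (sw s (bwd i))) (fun _ => rfl), ← prod_mul_distrib]
  apply prod_congr rfl
  intro i _
  rw [sw_fwd, sw_bwd]
  cases s i <;> simp [mul_comm]

theorem result : ∃ (n : ℕ) (G : SimpleGraph (Fin n)) (x : Fin n → EuclideanSpace ℝ (Fin 3)),
    (∀ i j, G.Adj i j → x i ≠ x j) ∧ (∃ ψ, Valid G x ψ) ∧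
    ∀ (ψ : G.Dart → Fin 2 → ℂ) (Δ : Finset G.Dart) (P : Finset (Equiv.Perm G.Dart)),
      Valid G x ψ → (∀ d, d ∈ Δ ↔ d.symm ∉ Δ) → (∀ σ, σ ∈ P ↔ ∀ d, (σ d).fst = d.fst) →
      ∏ d ∈ Δ, om (ψ d) (ψ d.symm) ≠ 0 ∧
      ‖(∑ σ ∈ P, ∏ d ∈ Δ, om (ψ (σ d)) (ψ (σ d.symm))) / ∏ d ∈ Δ, om (ψ d) (ψ d.symm)‖ < 1 := by
  refine ⟨17, G, pt, ?_, ?_, ?_⟩
  · intro i j hij e
    obtain ⟨h, l, hl, h0, h1, h2⟩ := key ⟨(i, j), hij⟩
    simp only [e, sub_self, PiLp.zero_apply] at h0 h2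
    have h3 := (mul_eq_zero.1 h0.symm).resolve_left hl.ne'
    have h4 := (mul_eq_zero.1 h2.symm).resolve_left hl.ne'
    nlinarith
  · refine ⟨fun d => ![((√(((pd d).1 : ℝ) ^ 2 + ((pd d).2 : ℝ) ^ 2))⁻¹ : ℝ) * (pd d).1,
      ((√(((pd d).1 : ℝ) ^ 2 + ((pd d).2 : ℝ) ^ 2))⁻¹ : ℝ) * (pd d).2], fun d => ⟨?_, ?_⟩⟩
    · have h := (key d).1
      simp only [Matrix.cons_val_zero, Matrix.cons_val_one, norm_mul, Complex.norm_real,
        Complex.norm_intCast, Real.norm_eq_abs, mul_pow, sq_abs, inv_pow, Real.sq_sqrt h.le]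
      field_simp
    · exact (valid_iff d _).2 ⟨_, rfl, rfl⟩
  · intro ψ Δ P hψ hΔ hP
    choose c hc using fun d => (valid_iff d (ψ d)).1 (hψ d).2
    have hc0 : ∀ d, c d ≠ 0 := by
      intro d e
      have := (hψ d).1
      rw [(hc d).1, (hc d).2, e] at this
      simp at this
    obtain ⟨ε, hε, hprod⟩ := prod_orient Δ hΔ
    have hC : (∏ i, c (fwd i) * c (bwd i)) ≠ 0 :=
      prod_ne_zero_iff.2 (fun i _ => mul_ne_zero (hc0 _) (hc0 _))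
    have hT : ∀ s : Fin 17 → Bool, ∏ d ∈ Δ, om (ψ (sw s d)) (ψ (sw s d.symm)) =
        ε * ((∏ i, c (fwd i) * c (bwd i)) * ((∏ i, t i (s i) (s (i + 1)) : ℤ) : ℂ)) := by
      intro s
      rw [hprod (fun d => om (ψ (sw s d)) (ψ (sw s d.symm))) (fun d => by simp [om]),
        term ψ c hc s]
    have hD : ∏ d ∈ Δ, om (ψ d) (ψ d.symm) = ε * ((∏ i, c (fwd i) * c (bwd i)) *
        ((PP 16 T false (fun _ => false) false : ℤ) : ℂ)) := by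
      rw [← den_eq, ← hT (fun _ => false)]
      simp [sw]
    have hN : ∑ σ ∈ P, ∏ d ∈ Δ, om (ψ (σ d)) (ψ (σ d.symm)) =
        ε * ((∏ i, c (fwd i) * c (bwd i)) *
        (((MM 16 T false).1 + (MM 16 T true).2 : ℤ) : ℂ)) := by
      rw [sum_perm P hP, ← sum_eq, Int.cast_sum, mul_sum, mul_sum]
      exact sum_congr rfl (fun s _ => hT s)
    obtain ⟨n1, n2⟩ := numeric
    have n3 : (0 : ℤ) < PP 16 T false (fun _ => false) false := n1.trans_lt n2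
    have n4 : ((PP 16 T false (fun _ => false) false : ℤ) : ℂ) ≠ 0 := by exact_mod_cast n3.ne'
    refine ⟨by rw [hD]; exact mul_ne_zero hε (mul_ne_zero hC n4), ?_⟩
    rw [hN, hD, mul_div_mul_left _ _ hε, mul_div_mul_left _ _ hC, norm_div, Complex.norm_intCast,
      Complex.norm_intCast, div_lt_one (by exact_mod_cast abs_pos.2 n3.ne')]
    have : |(MM 16 T false).1 + (MM 16 T true).2| < |PP 16 T false (fun _ => false) false| := by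
      rw [abs_of_nonneg n1, abs_of_pos n3]
      exact n2
    exact_mod_cast this

end Pool.Agent.Results.MP_229e70_co.Counter
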